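import Pool.Agent.Helper86.AN.Stmts

/-! MP_4042d8_co: `ST_EQ`. -/

set_option autoImplicit false

namespace Pool.Agent.Helper72.AN

open Pool.Agent.Helper86.AN Finset

theorem eq_orb_mem {V : Type} [Fintype V] [DecidableEq V] (s : Equiv.Perm V) (a v : V) :
    v ∈ orb s a ↔ ∃ i : ℤ, (s ^ i) a = v := by
  classical
  unfold orb
  rw [mem_filter]
  exact ⟨fun h => h.2, fun h => ⟨mem_univ _, h⟩⟩

theorem eq_zpow {V : Type} [Fintype V] [DecidableEq V] (s : Equiv.Perm V) (a : V) (i j : ℤ) :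
    (s ^ i) a = (s ^ j) a ↔ ((orb s a).card : ℤ) ∣ i - j := by
  classical
  have hcard : (orb s a).card = Function.minimalPeriod (s • ·) a := by
    have h1 : orb s a = (MulAction.orbit (Subgroup.zpowers s) a).toFinset := by
      ext v
      rw [eq_orb_mem, Set.mem_toFinset, MulAction.mem_orbit_iff]
      constructor
      · rintro ⟨k, hk⟩
        exact ⟨⟨s ^ k, k, rfl⟩, hk⟩
      · rintro ⟨⟨g, k, hk⟩, hg⟩
        refine ⟨k, ?_⟩
        rw [← hg]
        have : s ^ k = g := hk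
        rw [this]
        rfl
    rw [h1, Set.toFinset_card, MulAction.minimalPeriod_eq_card]
  rw [hcard, ← MulAction.zpow_smul_eq_iff_minimalPeriod_dvd]
  constructor
  · intro h
    have h2 : (s ^ (-j)) ((s ^ i) a) = (s ^ (-j)) ((s ^ j) a) := by rw [h]
    rw [← Equiv.Perm.mul_apply, ← Equiv.Perm.mul_apply, ← zpow_add, ← zpow_add] at h2
    have h3 : -j + j = 0 := by ring
    have h4 : -j + i = i - j := by ring
    rw [h3, h4] at h2
    exact h2
  · intro h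
    have h2 : (s ^ j) ((s ^ (i - j)) a) = (s ^ j) a := congrArg (s ^ j) h
    rw [← Equiv.Perm.mul_apply, ← zpow_add] at h2
    have h4 : j + (i - j) = i := by ring
    rw [h4] at h2
    exact h2

theorem eq_step {V : Type} (s : Equiv.Perm V) (i : ℤ) (a : V) :
    s ((s ^ i) a) = (s ^ (1 + i)) a := by
  rw [zpow_add, zpow_one, Equiv.Perm.mul_apply]

theorem st_EQ : ST_EQ := by
  classical
  intro V _ _ s a b hab hcard
  have hij : ∀ i j : ℤ, (s ^ i) a = (s ^ j) a ↔ (s ^ i) b = (s ^ j) b := by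
    intro i j
    rw [eq_zpow, eq_zpow, hcard]
  have hna : ∀ i : ℤ, ¬ s.SameCycle a ((s ^ i) b) := by
    rintro i ⟨j, hj⟩
    refine hab ⟨-i + j, ?_⟩
    rw [zpow_add, Equiv.Perm.mul_apply, hj, ← Equiv.Perm.mul_apply, ← zpow_add]
    simp
  obtain ⟨w, w1, w2⟩ : ∃ w : V → V, (∀ i : ℤ, w ((s ^ i) a) = (s ^ i) b) ∧
      ∀ i : ℤ, w ((s ^ i) b) = (s ^ i) a := by
    refine ⟨fun v => if h : s.SameCycle a v then (s ^ h.choose) b else
      if h : s.SameCycle b v then (s ^ h.choose) a else v, ?_, ?_⟩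
    · intro i
      have h : s.SameCycle a ((s ^ i) a) := ⟨i, rfl⟩
      simp only [dif_pos h]
      exact (hij _ _).1 h.choose_spec
    · intro i
      have h : s.SameCycle b ((s ^ i) b) := ⟨i, rfl⟩
      simp only [dif_neg (hna i), dif_pos h]
      exact (hij _ _).2 h.choose_spec
  have hne : ∀ i j : ℤ, (s ^ i) a ≠ (s ^ j) b := fun i j h => hna j ⟨i, h⟩
  have ma : ∀ i : ℤ, (s ^ i) a ∈ orb s a ∪ orb s b := fun i =>
    mem_union_left _ ((eq_orb_mem s a _).2 ⟨i, rfl⟩)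
  have mb : ∀ i : ℤ, (s ^ i) b ∈ orb s a ∪ orb s b := fun i =>
    mem_union_right _ ((eq_orb_mem s b _).2 ⟨i, rfl⟩)
  have hcase : ∀ v ∈ orb s a ∪ orb s b, (∃ i : ℤ, (s ^ i) a = v) ∨ ∃ i : ℤ, (s ^ i) b = v := by
    intro v hv
    rcases mem_union.1 hv with h | h
    · exact Or.inl ((eq_orb_mem s a _).1 h)
    · exact Or.inr ((eq_orb_mem s b _).1 h)
  have hinv : ∀ v ∈ orb s a ∪ orb s b, w v ∈ orb s a ∪ orb s b ∧ w (w v) = v ∧ w v ≠ v ∧
      w (s v) = s (w v) ∧ s v ∈ orb s a ∪ orb s b := by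
    intro v hv
    rcases hcase v hv with ⟨i, rfl⟩ | ⟨i, rfl⟩
    · rw [w1, w2, eq_step, eq_step, w1]
      exact ⟨mb i, rfl, (hne i i).symm, rfl, ma _⟩
    · rw [w2, w1, eq_step, eq_step, w2]
      exact ⟨ma i, rfl, hne i i, rfl, mb _⟩
  refine ⟨w, fun v hv => ⟨(hinv v hv).1, (hinv v hv).2.1, (hinv v hv).2.2.1⟩, ?_⟩
  intro c hc
  refine ⟨w, ?_⟩
  intro v hv
  obtain ⟨h1, h2, h3, h4, h5⟩ := hinv v hv
  refine ⟨h1, h2, hc v hv, ?_⟩
  intro x hx _
  constructor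
  · intro h
    rw [← h4, h]
  · intro h
    rw [← h4] at h
    have h6 : w (w (s v)) = w (w x) := by rw [h]
    rw [(hinv (s v) h5).2.1, (hinv x hx).2.1] at h6
    exact h6

end Pool.Agent.Helper72.AN
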