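import Pool.Agent.Helper86.AN.Stmts

/-! MP_4042d8_co: `ST_L2`. -/

set_option autoImplicit false

namespace Pool.Agent.Helper72.AN

open Pool.Agent.Helper86.AN Finset

theorem st_L2 (hEV : ST_EV) (hRF : ST_RF) (hCOL : ST_COL) (hINN : ST_INN) : ST_L2 := by
  intro V _ _ s A m w u n e c i a b a' b' hKD hZD hEnv hab hbn hSa hSb hne
  obtain ⟨c1, c2, c3, -, -, -, c7, c8⟩ := hCOL V s A m w u n e c i a b hKD hZD hEnv hab hbn
  have hI := hINN V s A m w u n e c i a b hKD hZD hEnv hab hbn
  obtain ⟨-, -, -, -, -, r6, -, -, -⟩ := hRF V s A m w u hKD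
  have hea : e a = e (a + n) := (hZD.per a (a + n)).2 ⟨-1, by ring⟩
  have ka : col w u e i c a b (e a) = true := by
    rw [hea]
    exact (c2 (a + n) (by linarith [hZD.npos]) le_rfl).2 hbn
  have kb : col w u e i c a b (e b) = false := by
    rw [← Bool.not_eq_true, c2 b hab hbn.le]
    exact lt_irrefl b
  have ra : rr s w (e a) = u i := (r6 (e a) (hZD.eA a) i).2 (by
    rcases hSa with h | h
    · exact Or.inl h.1
    · exact Or.inr h.2)
  have rb : rr s w (e b) = u (!i) := (r6 (e b) (hZD.eA b) (!i)).2 (by
    rcases hSb with h | h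
    · exact Or.inl h.1
    · exact Or.inr h.2)
  have t1 : ∀ v, v ∈ inn s A (col w u e i c a b) true ↔
      (v = w (e a) ∧ col w u e i c a b (rr s w (w (e a))) = true) := by
    intro v
    rw [(hI v).1]
    constructor
    · rintro (⟨h | h, h'⟩ | ⟨h, h1, h2⟩)
      · rw [h, ra, c7] at h'
        exact absurd h' (by decide)
      · rw [h] at h'
        exact ⟨h, h'⟩
      · subst h
        rcases hSb with h | h
        · rw [← h.1, kb] at h1
          exact absurd h1 (by decide)
        · rw [← h.2, kb] at h2
          exact absurd h2 (by decide)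
    · rintro ⟨h, h'⟩
      exact Or.inl ⟨Or.inr h, by rw [h]; exact h'⟩
  have t2 : ∀ v, v ∈ inn s A (col w u e i c a b) false ↔
      (v = w (e b) ∧ col w u e i c a b (rr s w (w (e b))) = false) := by
    intro v
    rw [(hI v).2]
    constructor
    · rintro (⟨h | h, h'⟩ | ⟨h, h1, h2⟩)
      · rw [h, rb, c8] at h'
        exact absurd h' (by decide)
      · rw [h] at h'
        exact ⟨h, h'⟩
      · subst h
        rcases hSa with h | h
        · rw [← h.1, ka] at h1
          exact absurd h1 (by decide)
        · rw [← h.2, ka] at h2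
          exact absurd h2 (by decide)
    · rintro ⟨h, h'⟩
      exact Or.inl ⟨Or.inr h, by rw [h]; exact h'⟩
  refine ⟨col w u e i c a b, c1, hEV V s A m _ hKD.sinv hKD.per hKD.minv c1 ?_⟩
  cases hA : col w u e i c a b (rr s w (w (e a)))
  · have hB : col w u e i c a b (rr s w (w (e b))) = true := by
      rw [hA] at hne
      cases hB : col w u e i c a b (rr s w (w (e b)))
      · exact (hne hB.symm).elim
      · rfl
    refine Or.inl ⟨?_, ?_⟩
    · ext v
      rw [t1, hA]
      simp
    · ext v
      rw [t2, hB]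
      simp
  · have hB : col w u e i c a b (rr s w (w (e b))) = false := by
      rw [hA] at hne
      cases hB : col w u e i c a b (rr s w (w (e b)))
      · rfl
      · exact (hne hB.symm).elim
    refine Or.inr (Or.inl ⟨w (e a), w (e b), ?_, ?_⟩)
    · ext v
      rw [t1, hA]
      simp
    · ext v
      rw [t2, hB]
      simp

end Pool.Agent.Helper72.AN
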